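import Mathlib

/-!
# The local Hodge–de Rham homology spectral sequence

Let `R = k[[x_1, …, x_n]]`, `X = Spec R`, let `f_1, …, f_s ∈ R` be nonzero and `Y = V(f_1, …, f_s)`.
The local cohomology `H^q_Y(X, M)` of an `R`-module `M` is the cohomology of the Čech complex
`⊕_{|S| = q} M_{f_S}`, where `f_S` is the product of the `f_j`, `j ∈ S`, for `S ⊆ {1, …, s}`, and
the complex `RΓ_Y(X, Ω^•_X)` is the total complex of the Čech–de Rham double complex
`K^{p,q} = ⊕_{|S| = q} (Ω^p_R)_{f_S}`. The local Hodge–de Rham homology spectral sequence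
`E_1^{p,q} = H^q_Y(X, Ω^p_X) ⇒ H^{p+q}_Y(X, Ω^•_X)` is the spectral sequence of this total complex
with the filtration by `p` (the stupid filtration of `Ω^•_X`).

Since `R` is a domain, all the localizations `R_{f_S}` are subrings of the field of fractions
`K = Frac R`. A cochain is therefore given by a function `c` with values in `K`: the element
`c T S ∈ R_{f_S}` is the coefficient of `dx_T = dx_{i_1} ∧ ⋯ ∧ dx_{i_p}`, for
`T = {i_1 < ⋯ < i_p}`, in the component with index `S`.
-/

set_option autoImplicit false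

noncomputable section

namespace Pool.Agent.R916.HdR

universe u

variable (k : Type u) [Field k] (n : ℕ)

/-- The ring `R = k[[x_1, …, x_n]]`. -/
abbrev Pow : Type u := MvPowerSeries (Fin n) k

/-- The field of fractions of `R = k[[x_1, …, x_n]]`. -/
abbrev Fr : Type u := FractionRing (Pow k n)

instance : IsDomain (Pow k n) := NoZeroDivisors.to_isDomain _

/-- Derivations of a domain extend to the field of fractions. -/
theorem exists_der_frac {k B : Type u} [Field k] [CommRing B] [IsDomain B] [Algebra k B]
    (E : Derivation k B B) : ∃ E' : Derivation k (FractionRing B) (FractionRing B),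
      ∀ b, E' (algebraMap B (FractionRing B) b) = algebraMap B (FractionRing B) (E b) := by
  let L := FractionRing B
  have hfe : Algebra.FormallyEtale B L :=
    Algebra.FormallyEtale.of_isLocalization (nonZeroDivisors B)
  let l0 : Ω[B⁄k] →ₗ[B] L := (Algebra.linearMap B L) ∘ₗ E.liftKaehlerDifferential
  let l : TensorProduct B L Ω[B⁄k] →ₗ[L] L := LinearMap.liftBaseChange L l0
  let e := KaehlerDifferential.tensorKaehlerEquivOfFormallyEtale k B L
  refine ⟨(l ∘ₗ e.symm.toLinearMap).compDer (KaehlerDifferential.D k L), fun c => ?_⟩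
  change l (e.symm (KaehlerDifferential.D k L (algebraMap B L c))) = _
  rw [KaehlerDifferential.tensorKaehlerEquivOfFormallyEtale_symm_D_algebraMap,
    LinearMap.liftBaseChange_tmul, one_smul]
  change algebraMap B L (E.liftKaehlerDifferential (KaehlerDifferential.D k B c)) = _
  rw [Derivation.liftKaehlerDifferential_comp_D]

/-- The derivation `∂/∂x_i` of the field of fractions of `k[[x_1, …, x_n]]`: the (unique) extension
of the derivation `∂/∂x_i` of `k[[x_1, …, x_n]]`. -/
def der (i : Fin n) : Derivation k (Fr k n) (Fr k n) :=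
  (exists_der_frac (MvPowerSeries.pderiv k i)).choose

theorem der_algebraMap (i : Fin n) (b : Pow k n) :
    der k n i (algebraMap (Pow k n) (Fr k n) b) =
      algebraMap (Pow k n) (Fr k n) (MvPowerSeries.pderiv k i b) :=
  (exists_der_frac (MvPowerSeries.pderiv k i)).choose_spec b

variable {k n}

/-- The localization `R_g`, for nonzero `g ∈ R`, as a set of elements of the field of fractions:
`z ∈ R_g` if and only if `z g^m ∈ R` for some `m`. -/
def locAt (g : Pow k n) : Set (Fr k n) :=
  {z | ∃ (m : ℕ) (a : Pow k n), z * algebraMap (Pow k n) (Fr k n) g ^ m = algebraMap _ _ a}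

variable (k n)

/-- Arrays of coefficients: `c T S` is the coefficient of `dx_T` in the component with index `S`. -/
abbrev Coch (s : ℕ) : Type u := Finset (Fin n) → Finset (Fin s) → Fr k n

variable {k n} {s : ℕ}

/-- The sign `(-1)^(number of the elements of T smaller than i)`. -/
def sgn {m : ℕ} (i : Fin m) (T : Finset (Fin m)) : ℤ := (-1) ^ (T.filter (fun j => j < i)).card

/-- The de Rham differential `c dx_T ↦ ∑_i (∂c/∂x_i) dx_i ∧ dx_T`. -/
def deRham (c : Coch k n s) : Coch k n s := fun T S =>
  ∑ i ∈ T, (sgn i T : Fr k n) * der k n i (c (T.erase i) S)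

/-- The Čech differential. -/
def cech (c : Coch k n s) : Coch k n s := fun T S =>
  ∑ j ∈ S, (sgn j S : Fr k n) * c T (S.erase j)

/-- The differential `D = d + (-1)^p δ` of the total complex of the Čech–de Rham double complex. -/
def totalD (c : Coch k n s) : Coch k n s := fun T S =>
  deRham c T S + (-1) ^ T.card * cech c T S

/-- `FilK f p l` is `F^p K^l`: the cochains of total degree `l` in the Čech–de Rham total complex of
`f_1, …, f_s`, all of whose components have bidegree `(p', q)` with `p' ≥ p`. -/
def FilK (f : Fin s → Pow k n) (p l : ℤ) : Set (Coch k n s) :=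
  {c | (∀ T S, c T S ∈ locAt (∏ j ∈ S, f j)) ∧
    ∀ T S, c T S ≠ 0 → (T.card : ℤ) + S.card = l ∧ p ≤ T.card}

/-- `Z_r^p = {c ∈ F^p K^l | D c ∈ F^{p+r} K^{l+1}}`. -/
def ZK (f : Fin s → Pow k n) (r p l : ℤ) : Set (Coch k n s) :=
  {c | c ∈ FilK f p l ∧ totalD c ∈ FilK f (p + r) (l + 1)}

/-- The differential `d_r : E_r^{p, l-p} → E_r^{p+r, l-p-r+1}` of the spectral sequence of the
filtered complex vanishes. Recall that `E_r^{p,l-p} = Z_r^p / (Z_{r-1}^{p+1} + D Z_{r-1}^{p-r+1})`
and that `d_r` is induced by `D`. Thus `d_r` vanishes on `E_r^{p,l-p}` if and only if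
`D x ∈ Z_{r-1}^{p+r+1} + D Z_{r-1}^{p+1}` for all `x ∈ Z_r^p`. -/
def DrVanishes (f : Fin s → Pow k n) (r p l : ℤ) : Prop :=
  ∀ x ∈ ZK f r p l, ∃ z ∈ ZK f (r - 1) (p + r + 1) (l + 1), ∃ y ∈ ZK f (r - 1) (p + 1) l,
    totalD x = z + totalD y

/-- The local Hodge–de Rham homology spectral sequence of `R → A = R/(f_1, …, f_s)` degenerates at
`E_2`: all the differentials `d_r` with `r ≥ 2` vanish. -/
def DegeneratesAtE2 (f : Fin s → Pow k n) : Prop :=
  ∀ r p l : ℤ, 2 ≤ r → DrVanishes f r p l

end Pool.Agent.R916.HdR
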