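import Pool.Agent.R916.HdR.Main

/-!
# The differential `d_2` is nonzero
-/

set_option autoImplicit false

noncomputable section

namespace Pool.Agent.R916.HdR

universe u

open MvPowerSeries

variable {k : Type u} [Field k]

theorem prod01 : ∏ j ∈ ({0, 1} : Finset (Fin 2)), ff k j = qq k * X 0 * (qq k * X 2) := by
  rw [Finset.prod_insert (by decide), Finset.prod_singleton]; rfl

theorem prod0 : ∏ j ∈ ({0} : Finset (Fin 2)), ff k j = qq k * X 0 := by
  rw [Finset.prod_singleton]; rfl

theorem prod1 : ∏ j ∈ ({1} : Finset (Fin 2)), ff k j = qq k * X 2 := by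
  rw [Finset.prod_singleton]; rfl

theorem xc_mem : xc k ∈ FilK (ff k) 3 5 := by
  have hQ := QQ_ne (k := k)
  have hx0 := xx_ne (k := k) 0
  have hx2 := xx_ne (k := k) 2
  refine FilK_add (FilK_add (FilK_add (FilK_add ?_ ?_) ?_) ?_) ?_
  · refine mono_mem ?_ (by decide) (by decide)
    rw [prod01]
    refine ⟨1, X 5 * qq k, ?_⟩
    rw [c0]
    simp only [map_mul]
    change xx k 5 / (xx k 0 * xx k 2 * QQ k) * (QQ k * xx k 0 * (QQ k * xx k 2)) ^ 1 =
      xx k 5 * QQ k
    field_simp
  · refine mono_mem ?_ (by decide) (by decide)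
    rw [prod0]
    refine ⟨2, -(X 3 * X 0), ?_⟩
    rw [c1]
    simp only [map_mul, map_neg]
    change -(xx k 3 / (xx k 0 * QQ k ^ 2)) * (QQ k * xx k 0) ^ 2 = -(xx k 3 * xx k 0)
    field_simp
  · refine mono_mem ?_ (by decide) (by decide)
    rw [prod0]
    refine ⟨2, -(X 5 * X 0), ?_⟩
    rw [c2]
    simp only [map_mul, map_neg]
    change -(xx k 5 / (xx k 0 * QQ k ^ 2)) * (QQ k * xx k 0) ^ 2 = -(xx k 5 * xx k 0)
    field_simp
  · refine mono_mem ?_ (by decide) (by decide)
    rw [prod1]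
    refine ⟨2, X 1 * X 2, ?_⟩
    rw [c3]
    simp only [map_mul]
    change (xx k 1 / (xx k 2 * QQ k ^ 2)) * (QQ k * xx k 2) ^ 2 = xx k 1 * xx k 2
    field_simp
  · refine mono_mem ?_ (by decide) (by decide)
    rw [prod1]
    refine ⟨2, -(X 5 * X 2), ?_⟩
    rw [c4]
    simp only [map_mul, map_neg]
    change -(xx k 5 / (xx k 2 * QQ k ^ 2)) * (QQ k * xx k 2) ^ 2 = -(xx k 5 * xx k 2)
    field_simp

theorem loc_aux (i a : Fin 6) : -2 * xx k i / QQ k ^ 3 ∈ locAt (qq k * X a) := by
  refine ⟨3, -2 * X i * X a ^ 3, ?_⟩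
  have hQ := QQ_ne (k := k)
  simp only [map_mul, map_neg, map_ofNat, map_pow]
  change -2 * xx k i / QQ k ^ 3 * (QQ k * xx k a) ^ 3 = -2 * xx k i * xx k a ^ 3
  field_simp

theorem totalD_xc_mem : totalD (xc k) ∈ FilK (ff k) (3 + 2) (5 + 1) := by
  rw [totalD_xc]
  refine FilK_add (FilK_add (FilK_add (FilK_add (FilK_add ?_ ?_) ?_) ?_) ?_) ?_
  · refine mono_mem ?_ (by decide) (by decide)
    rw [prod0]; exact loc_aux _ _
  · refine mono_mem ?_ (by decide) (by decide)
    rw [prod0]; exact loc_aux _ _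
  · refine mono_mem ?_ (by decide) (by decide)
    rw [prod0]; exact loc_aux _ _
  · refine mono_mem ?_ (by decide) (by decide)
    rw [prod1]; exact loc_aux _ _
  · refine mono_mem ?_ (by decide) (by decide)
    rw [prod1]; exact loc_aux _ _
  · refine mono_mem ?_ (by decide) (by decide)
    rw [prod1]; exact loc_aux _ _

/-- An element of `R_{q x_0}` and of `R_{q x_2}` is in `R_q`. -/
theorem loc_inter {z : Fr k 6} (h0 : z ∈ locAt (qq k * X 0)) (h2 : z ∈ locAt (qq k * X 2)) :
    ∃ (m : ℕ) (a : Pow k 6), z * QQ k ^ m = io k 6 a := by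
  obtain ⟨m, a, ha⟩ := h0
  obtain ⟨m', b, hb⟩ := h2
  rw [map_mul] at ha hb
  change z * (QQ k * xx k 0) ^ m = io k 6 a at ha
  change z * (QQ k * xx k 2) ^ m' = io k 6 b at hb
  have h1 : a * (qq k ^ m' * X 2 ^ m') = b * (qq k ^ m) * X 0 ^ m := by
    apply io_inj (k := k) (n := 6)
    simp only [map_mul, map_pow]
    rw [← ha, ← hb]
    change z * (QQ k * xx k 0) ^ m * (QQ k ^ m' * xx k 2 ^ m') =
      z * (QQ k * xx k 2) ^ m' * QQ k ^ m * xx k 0 ^ m
    ring
  have h3 : (X 0 : Pow k 6) ^ m ∣ a * qq k ^ m' := by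
    rw [X_pow_dvd_iff]
    intro e he
    have h4 : coeff (e + Finsupp.single 2 m') (a * (qq k ^ m' * X 2 ^ m')) = 0 := by
      rw [h1]
      have : (X 0 : Pow k 6) ^ m ∣ b * qq k ^ m * X 0 ^ m := Dvd.intro_left _ rfl
      rw [X_pow_dvd_iff] at this
      refine this _ ?_
      simpa using he
    rw [← mul_assoc, X_pow_eq, coeff_add_mul_monomial, mul_one] at h4
    exact h4
  obtain ⟨c, hc⟩ := h3
  refine ⟨m + m', c, ?_⟩
  have hx0 := xx_ne (k := k) 0
  have hc' : io k 6 a * QQ k ^ m' = xx k 0 ^ m * io k 6 c := by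
    have := congrArg (io k 6) hc
    rw [map_mul, map_mul, map_pow, map_pow] at this
    exact this
  rw [← ha] at hc'
  have : z * (QQ k ^ m * QQ k ^ m') * xx k 0 ^ m = io k 6 c * xx k 0 ^ m := by
    rw [mul_comm (io k 6 c), ← hc']
    ring
  rw [pow_add]
  exact mul_right_cancel₀ (pow_ne_zero m hx0) this

/-- the signs -/
def eps (i j : Fin 6) : ℤ := if i = j then 0 else (-1) ^ j.val * sgn i (Finset.univ.erase j)

theorem eps_swap (i j : Fin 6) : eps i j = -eps j i := by
  revert i j; decide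

theorem sum_antisymm [CharZero k] (H : Fin 6 → Fin 6 → k) (h : ∀ i j, H i j = -H j i) :
    ∑ j, ∑ i, H i j = 0 := by
  have h1 : ∑ j, ∑ i, H i j = -∑ j, ∑ i, H i j := by
    conv_lhs => rw [Finset.sum_comm]
    rw [← Finset.sum_neg_distrib]
    refine Finset.sum_congr rfl fun i _ => ?_
    rw [← Finset.sum_neg_distrib]
    exact Finset.sum_congr rfl fun j _ => h i j
  exact self_eq_neg.1 h1

theorem sum_antisymm' [CharZero k] (H : Fin 6 → Fin 6 → Pow k 6) (h : ∀ i j, H i j = -H j i) :
    ∑ j, ∑ i, H i j = 0 := by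
  have h1 : ∑ j, ∑ i, H i j = -∑ j, ∑ i, H i j := by
    conv_lhs => rw [Finset.sum_comm]
    rw [← Finset.sum_neg_distrib]
    refine Finset.sum_congr rfl fun i _ => ?_
    rw [← Finset.sum_neg_distrib]
    exact Finset.sum_congr rfl fun j _ => h i j
  have h2 : (2 : Pow k 6) * (∑ j, ∑ i, H i j) = 0 := by
    rw [two_mul]
    nth_rewrite 1 [h1]
    exact neg_add_cancel _
  rcases mul_eq_zero.1 h2 with h3 | h3
  · exfalso
    have := congrArg constantCoeff h3
    rw [map_ofNat, map_zero] at this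
    exact two_ne_zero this
  · exact h3

/-- **The key nonvanishing.** -/
theorem core [CharZero k] (N : ℕ) (B : Fin 6 → Fin 6 → Pow k 6) (hB : ∀ i j, B i j = B j i)
    (β : Fin 6 → Pow k 6)
    (h : 2 * qq k ^ (N + 1) = ∑ j : Fin 6, ∑ i : Fin 6, (eps i j : Pow k 6) * (X (par j) *
        (qq k * pd i (B i j) - ((N + 2 : ℕ) : Pow k 6) * B i j * X (par i))) -
      qq k ^ (N + 3) * ∑ j : Fin 6, (-1) ^ j.val * X (par j) * β j) : False := by
  have h1 : ∑ j : Fin 6, ∑ i : Fin 6, (eps i j : Pow k 6) * (X (par j) *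
        (qq k * pd i (B i j) - ((N + 2 : ℕ) : Pow k 6) * B i j * X (par i))) =
      qq k * ∑ j : Fin 6, ∑ i : Fin 6, (eps i j : Pow k 6) * (X (par j) * pd i (B i j)) := by
    have h2 : ∑ j : Fin 6, ∑ i : Fin 6, (eps i j : Pow k 6) * (X (par j) *
        (((N + 2 : ℕ) : Pow k 6) * B i j * X (par i))) = 0 := by
      apply sum_antisymm'
      intro i j
      rw [eps_swap i j, hB i j]
      push_cast
      ring
    rw [Finset.mul_sum, ← sub_zero (∑ j : Fin 6, qq k * _), ← h2, ← Finset.sum_sub_distrib]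
    refine Finset.sum_congr rfl fun j _ => ?_
    rw [Finset.mul_sum, ← Finset.sum_sub_distrib]
    refine Finset.sum_congr rfl fun i _ => ?_
    ring
  rw [h1] at h
  have h3 : 2 * qq k ^ N = ∑ j : Fin 6, ∑ i : Fin 6, (eps i j : Pow k 6) *
      (X (par j) * pd i (B i j)) -
      qq k ^ (N + 1) * (qq k * ∑ j : Fin 6, (-1) ^ j.val * X (par j) * β j) := by
    apply mul_left_cancel₀ (qq_ne (k := k))
    linear_combination h
  have h4 := congrArg (lam N) h3
  rw [map_sub, lam_qq_pow_succ, sub_zero, two_mul, map_add, map_sum] at h4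
  have h5 : ∑ j : Fin 6, lam N (∑ i : Fin 6, (eps i j : Pow k 6) * (X (par j) * pd i (B i j))) =
      ∑ j : Fin 6, ∑ i : Fin 6, (eps i j) • lam N (X (par j) * pd i (B i j)) := by
    refine Finset.sum_congr rfl fun j _ => ?_
    rw [map_sum]
    refine Finset.sum_congr rfl fun i _ => ?_
    rw [← map_zsmul, zsmul_eq_mul]
  have h6 : ∑ j : Fin 6, ∑ i : Fin 6, (eps i j) • lam N (X (par j) * pd i (B i j)) = 0 := by
    apply sum_antisymm
    intro i j
    have h7 := lam_rot N i j (B i j)
    rw [map_sub, sub_eq_zero] at h7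
    rw [eps_swap i j, hB j i, h7, neg_smul]
  rw [h5, h6] at h4
  have h8 := lam_qq_pow (k := k) N
  rw [← two_mul] at h4
  exact h8 ((mul_eq_zero.1 h4).resolve_left two_ne_zero)

theorem eps_cast (i j : Fin 6) (hij : i ≠ j) :
    (eps i j : ℤ) = (-1) ^ j.val * sgn i (Finset.univ.erase j) := by
  rw [eps, if_neg hij]

theorem not_vanishes [CharZero k] : ¬ DrVanishes (ff k) 2 3 5 := by
  intro hv
  obtain ⟨z, hz, y, hy, hzy⟩ := hv (xc k) ⟨xc_mem, totalD_xc_mem⟩
  have hQ := QQ_ne (k := k)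
  -- the components of `y`
  have hz0 : ∀ T S, T.card < 6 → z T S = 0 := by
    intro T S hT
    by_contra hne
    have := (hz.1.2 T S hne).2
    omega
  have hy4 : ∀ T S, T.card < 4 → y T S = 0 := by
    intro T S hT
    by_contra hne
    have := (hy.1.2 T S hne).2
    omega
  have hDy : ∀ T S, T.card < 5 → totalD y T S = 0 := by
    intro T S hT
    by_contra hne
    have := (hy.2.2 T S hne).2
    omega
  -- the components with indices `{0}` and `{1}` agree
  have h01 : ∀ T : Finset (Fin 6), T.card = 4 → y T {0} = y T {1} := by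
    intro T hT
    have h1 := hDy T {0, 1} (by omega)
    have h2 : deRham y T {0, 1} = 0 := by
      rw [deRham]
      refine Finset.sum_eq_zero fun i hi => ?_
      rw [hy4 _ _ (by rw [Finset.card_erase_of_mem hi]; omega), map_zero, mul_zero]
    rw [totalD, h2, zero_add, hT, cech, Finset.sum_insert (by decide), Finset.sum_singleton] at h1
    have s0 : sgn 0 ({0, 1} : Finset (Fin 2)) = 1 := by decide
    have s1 : sgn 1 ({0, 1} : Finset (Fin 2)) = -1 := by decide
    have e0 : ({0, 1} : Finset (Fin 2)).erase 0 = {1} := by decide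
    have e1 : ({0, 1} : Finset (Fin 2)).erase 1 = {0} := by decide
    rw [s0, s1, e0, e1] at h1
    push_cast at h1
    linear_combination (-1 : Fr k 6) * h1
  have hA : ∀ T : Finset (Fin 6), ∃ (m : ℕ) (a : Pow k 6), T.card = 4 →
      y T {0} * QQ k ^ m = io k 6 a := by
    intro T
    by_cases hT : T.card = 4
    · have h2 := hy.1.1 T {0}
      have h3 := hy.1.1 T {1}
      rw [prod0] at h2
      rw [prod1, ← h01 T hT] at h3
      obtain ⟨m, a, h⟩ := loc_inter h2 h3
      exact ⟨m, a, fun _ => h⟩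
    · exact ⟨0, 0, fun h => absurd h hT⟩
  choose m a hma using hA
  have hb : ∀ T : Finset (Fin 6), ∃ b : Pow k 6, y T ∅ = io k 6 b := by
    intro T
    obtain ⟨m, b, h⟩ := hy.1.1 T ∅
    refine ⟨b, ?_⟩
    rw [← h, Finset.prod_empty]
    simp
  choose b hb using hb
  -- a common exponent
  let N : ℕ := ∑ T : Finset (Fin 6), m T
  let A : Finset (Fin 6) → Pow k 6 := fun T => a T * qq k ^ (N + 2 - m T)
  have hAT : ∀ T : Finset (Fin 6), T.card = 4 → y T {0} * QQ k ^ (N + 2) = io k 6 (A T) := by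
    intro T hT
    have h1 : m T ≤ N := Finset.single_le_sum (f := m) (fun _ _ => Nat.zero_le _)
      (Finset.mem_univ T)
    have h2 : N + 2 = m T + (N + 2 - m T) := by omega
    change _ = io k 6 (a T * qq k ^ (N + 2 - m T))
    rw [map_mul, ← hma T hT, map_pow]
    conv_lhs => rw [h2, pow_add, ← mul_assoc]
    rfl
  have hder : ∀ (i : Fin 6) (T : Finset (Fin 6)), T.card = 4 →
      der k 6 i (y T {0}) * QQ k ^ (N + 3) =
        io k 6 (qq k * pd i (A T) - ((N + 2 : ℕ) : Pow k 6) * A T * X (par i)) := by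
    intro i T hT
    have h1 := congrArg (der k 6 i) (hAT T hT)
    rw [der_mul, der_algebraMap] at h1
    have h2 : der k 6 i (QQ k ^ (N + 2)) = ((N + 2 : ℕ) : Fr k 6) * QQ k ^ (N + 1) * xx k (par i) := by
      rw [Derivation.leibniz_pow, der_QQ, nsmul_eq_mul, smul_eq_mul, mul_assoc]
      rfl
    rw [h2] at h1
    rw [map_sub, map_mul, map_mul, map_mul, ← hAT T hT, map_natCast]
    change _ = QQ k * io k 6 (pderiv k i (A T)) - ((N + 2 : ℕ) : Fr k 6) *
      (y T {0} * QQ k ^ (N + 2)) * xx k (par i)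
    rw [← h1]
    ring
  -- the equations in bidegree `(5, 1)`
  have heq : ∀ j : Fin 6, totalD (xc k) (Finset.univ.erase j) {0} * QQ k ^ (N + 3) =
      io k 6 ((∑ i ∈ Finset.univ.erase j, (sgn i (Finset.univ.erase j) : Pow k 6) *
        (qq k * pd i (A ((Finset.univ.erase j).erase i)) -
          ((N + 2 : ℕ) : Pow k 6) * A ((Finset.univ.erase j).erase i) * X (par i))) -
        b (Finset.univ.erase j) * qq k ^ (N + 3)) := by
    intro j
    have hcard : (Finset.univ.erase j : Finset (Fin 6)).card = 5 := by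
      rw [Finset.card_erase_of_mem (Finset.mem_univ j)]; rfl
    have h1 := congrFun (congrFun hzy (Finset.univ.erase j)) {0}
    rw [Pi.add_apply, Pi.add_apply, hz0 _ _ (by omega), zero_add] at h1
    rw [h1, totalD, hcard, cech, Finset.sum_singleton, deRham]
    have s0 : sgn 0 ({0} : Finset (Fin 2)) = 1 := by decide
    have e0 : ({0} : Finset (Fin 2)).erase 0 = ∅ := by decide
    rw [s0, e0, hb, map_sub, map_mul, map_pow, map_sum, add_mul, Finset.sum_mul]
    rw [sub_eq_add_neg]
    congr 1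
    · refine Finset.sum_congr rfl fun i hi => ?_
      rw [mul_assoc, hder i _ (by rw [Finset.card_erase_of_mem hi, hcard]), map_mul, map_intCast]
    · push_cast
      change _ = -(io k 6 (b (Finset.univ.erase j)) * QQ k ^ (N + 3))
      ring
  -- the left-hand sides
  have hval : ∀ j : Fin 6, (-1) ^ j.val * xx k (par j) *
      (totalD (xc k) (Finset.univ.erase j) {0} * QQ k ^ (N + 3)) =
      if j.val % 2 = 1 then 2 * (xx k (par j) * xx k j) * QQ k ^ N else 0 := by
    intro j
    rw [totalD_xc]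
    have hp : QQ k ^ (N + 3) = QQ k ^ 3 * QQ k ^ N := by rw [pow_add, mul_comm]
    have z01 : ({0} : Finset (Fin 2)) ≠ {1} := by decide
    simp only [Pi.add_apply, mono, z01, and_false, if_false, add_zero, and_true]
    rw [hp]
    fin_cases j
    · have h1 : (Finset.univ.erase 0 : Finset (Fin 6)) ≠ {0, 2, 3, 4, 5} := by decide
      have h2 : (Finset.univ.erase 0 : Finset (Fin 6)) ≠ {0, 1, 2, 4, 5} := by decide
      have h3 : (Finset.univ.erase 0 : Finset (Fin 6)) ≠ {0, 1, 2, 3, 4} := by decide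
      simp [h1, h2, h3]
    · have h1 : (Finset.univ.erase 1 : Finset (Fin 6)) = {0, 2, 3, 4, 5} := by decide
      have h2 : (Finset.univ.erase 1 : Finset (Fin 6)) ≠ {0, 1, 2, 4, 5} := by decide
      have h3 : (Finset.univ.erase 1 : Finset (Fin 6)) ≠ {0, 1, 2, 3, 4} := by decide
      simp only [Fin.mk_one, h2, h3, if_false, add_zero]
      rw [if_pos h1]
      simp
      field_simp
    · have h1 : (Finset.univ.erase 2 : Finset (Fin 6)) ≠ {0, 2, 3, 4, 5} := by decide
      have h2 : (Finset.univ.erase 2 : Finset (Fin 6)) ≠ {0, 1, 2, 4, 5} := by decide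
      have h3 : (Finset.univ.erase 2 : Finset (Fin 6)) ≠ {0, 1, 2, 3, 4} := by decide
      simp [h1, h2, h3]
    · have h1 : (Finset.univ.erase 3 : Finset (Fin 6)) ≠ {0, 2, 3, 4, 5} := by decide
      have h2 : (Finset.univ.erase 3 : Finset (Fin 6)) = {0, 1, 2, 4, 5} := by decide
      have h3 : (Finset.univ.erase 3 : Finset (Fin 6)) ≠ {0, 1, 2, 3, 4} := by decide
      simp only [Fin.reduceFinMk, h1, h3, if_false, add_zero, zero_add]
      rw [if_pos h2]
      simp
      field_simp
    · have h1 : (Finset.univ.erase 4 : Finset (Fin 6)) ≠ {0, 2, 3, 4, 5} := by decide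
      have h2 : (Finset.univ.erase 4 : Finset (Fin 6)) ≠ {0, 1, 2, 4, 5} := by decide
      have h3 : (Finset.univ.erase 4 : Finset (Fin 6)) ≠ {0, 1, 2, 3, 4} := by decide
      simp [h1, h2, h3]
    · have h1 : (Finset.univ.erase 5 : Finset (Fin 6)) ≠ {0, 2, 3, 4, 5} := by decide
      have h2 : (Finset.univ.erase 5 : Finset (Fin 6)) ≠ {0, 1, 2, 4, 5} := by decide
      have h3 : (Finset.univ.erase 5 : Finset (Fin 6)) = {0, 1, 2, 3, 4} := by decide
      simp only [Fin.reduceFinMk, h1, h2, if_false, add_zero, zero_add]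
      rw [if_pos h3]
      simp
      field_simp
  have hsum : ∑ j : Fin 6, (-1) ^ j.val * xx k (par j) *
      (totalD (xc k) (Finset.univ.erase j) {0} * QQ k ^ (N + 3)) = 2 * QQ k ^ (N + 1) := by
    rw [Finset.sum_congr rfl fun j _ => hval j]
    simp only [Fin.sum_univ_six]
    simp only [Fin.coe_ofNat_eq_mod, par1, par3, par5]
    norm_num
    linear_combination (-2 * QQ k ^ N) * QQ_eq (k := k)
  refine core (k := k) N (fun i j => A ((Finset.univ.erase j).erase i)) ?_
    (fun j => b (Finset.univ.erase j)) ?_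
  · intro i j
    simp only [Finset.erase_right_comm]
  · apply io_inj (k := k) (n := 6)
    have h1 : io k 6 (2 * qq k ^ (N + 1)) = 2 * QQ k ^ (N + 1) := by
      rw [map_mul, map_pow, map_ofNat]; rfl
    rw [h1, ← hsum, map_sub, map_sum, Finset.mul_sum, map_sum, ← Finset.sum_sub_distrib]
    refine Finset.sum_congr rfl fun j _ => ?_
    rw [heq j]
    have h2 : ((-1) ^ j.val * xx k (par j) : Fr k 6) = io k 6 ((-1) ^ j.val * X (par j)) := by
      rw [map_mul, map_pow, map_neg, map_one]; rfl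
    rw [h2, ← map_mul, ← map_sub]
    congr 1
    rw [mul_sub, Finset.mul_sum]
    congr 1
    · rw [← Finset.sum_erase (Finset.univ : Finset (Fin 6)) (a := j)]
      · refine Finset.sum_congr rfl fun i hi => ?_
        rw [eps_cast i j (Finset.ne_of_mem_erase hi)]
        push_cast
        ring
      · rw [eps, if_pos rfl, Int.cast_zero, zero_mul]
    · ring

end Pool.Agent.R916.HdR
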