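import Pool.Agent.R916.HdR.Defs

/-!
# The Laplacian of the quadratic form `x_0 x_1 + x_2 x_3 + x_4 x_5`
-/

set_option autoImplicit false

noncomputable section

namespace Pool.Agent.R916.HdR

universe u

open MvPowerSeries

variable {k : Type u} [Field k]

/-- `∂/∂x_i` on power series. -/
abbrev pd (i : Fin 6) (f : Pow k 6) : Pow k 6 := MvPowerSeries.pderiv k i f

/-- the quadratic form -/
def qq (k : Type u) [Field k] : Pow k 6 := X 0 * X 1 + X 2 * X 3 + X 4 * X 5

/-- the Laplacian -/
def lap (f : Pow k 6) : Pow k 6 := pd 0 (pd 1 f) + pd 2 (pd 3 f) + pd 4 (pd 5 f)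

theorem pd_comm (i j : Fin 6) (f : Pow k 6) : pd i (pd j f) = pd j (pd i f) := by
  ext m
  rw [pd, pd, pd, pd, coeff_pderiv, coeff_pderiv, coeff_pderiv, coeff_pderiv]
  by_cases h : i = j
  · subst h; rfl
  · simp only [Finsupp.add_apply, Finsupp.single_apply, h, Ne.symm h, if_false, add_zero]
    rw [add_right_comm]
    ring

theorem pd_mul (i : Fin 6) (f g : Pow k 6) : pd i (f * g) = f * pd i g + g * pd i f := by
  rw [pd, Derivation.leibniz]; rfl

theorem pd_add (i : Fin 6) (f g : Pow k 6) : pd i (f + g) = pd i f + pd i g := map_add _ _ _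

theorem pd_sub (i : Fin 6) (f g : Pow k 6) : pd i (f - g) = pd i f - pd i g := map_sub _ _ _

theorem lap_add (f g : Pow k 6) : lap (f + g) = lap f + lap g := by
  simp only [lap, pd_add]; ring

theorem lap_neg (f : Pow k 6) : lap (-f) = -lap f := by
  simp only [lap, pd, map_neg]; ring

theorem lap_sub (f g : Pow k 6) : lap (f - g) = lap f - lap g := by
  simp only [lap, pd_sub]; ring

theorem lap_X_mul (a : Fin 6) (f : Pow k 6) :
    lap (X a * f) = X a * lap f + pd (Equiv.swap 0 1 (Equiv.swap 2 3 (Equiv.swap 4 5 a))) f := by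
  fin_cases a <;>
  · simp only [lap, pd_mul, pd_add]
    simp [pd, pderiv_X_of_ne, Equiv.swap_apply_def]
    try ring

/-- the partner of an index -/
def par (a : Fin 6) : Fin 6 := Equiv.swap 0 1 (Equiv.swap 2 3 (Equiv.swap 4 5 a))

theorem par_par (a : Fin 6) : par (par a) = a := by fin_cases a <;> rfl

/-- rotations commute with the Laplacian -/
theorem lap_rot (i j : Fin 6) (f : Pow k 6) :
    lap (X (par i) * pd j f - X (par j) * pd i f) =
      X (par i) * pd j (lap f) - X (par j) * pd i (lap f) := by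
  rw [lap_sub, lap_X_mul, lap_X_mul]
  have h1 : ∀ a, lap (pd a f) = pd a (lap f) := by
    intro a
    simp only [lap, pd_add]
    rw [pd_comm 1 a, pd_comm 0 a, pd_comm 3 a, pd_comm 2 a, pd_comm 5 a, pd_comm 4 a]
  change X (par i) * lap (pd j f) + pd (par (par i)) (pd j f) -
    (X (par j) * lap (pd i f) + pd (par (par j)) (pd i f)) = _
  rw [h1, h1, par_par, par_par, pd_comm i j]
  ring

theorem constCoeff_rot (N : ℕ) (i j : Fin 6) (f : Pow k 6) :
    constantCoeff (lap^[N] (X (par i) * pd j f - X (par j) * pd i f)) = 0 := by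
  have h : ∀ N : ℕ, ∀ f : Pow k 6, lap^[N] (X (par i) * pd j f - X (par j) * pd i f) =
      X (par i) * pd j (lap^[N] f) - X (par j) * pd i (lap^[N] f) := by
    intro N
    induction N with
    | zero => intro f; rfl
    | succ N ih =>
      intro f
      rw [Function.iterate_succ_apply, lap_rot, ih, Function.iterate_succ_apply]
  rw [h, map_sub, map_mul, map_mul, constantCoeff_X, constantCoeff_X]
  simp

theorem lap_iter_add (N : ℕ) (f g : Pow k 6) : lap^[N] (f + g) = lap^[N] f + lap^[N] g := by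
  induction N generalizing f g with
  | zero => rfl
  | succ N ih => simp only [Function.iterate_succ_apply, lap_add, ih]

theorem lap_iter_neg (N : ℕ) (f : Pow k 6) : lap^[N] (-f) = -lap^[N] f := by
  induction N generalizing f with
  | zero => rfl
  | succ N ih => simp only [Function.iterate_succ_apply, lap_neg, ih]

/-- the linear functional `constantCoeff ∘ Δ^N` -/
def lam (N : ℕ) : Pow k 6 →+ k where
  toFun f := constantCoeff (lap^[N] f)
  map_zero' := by
    have h : lap^[N] (0 : Pow k 6) = 0 := by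
      have := lap_iter_add N (0 : Pow k 6) 0
      rw [add_zero] at this
      exact left_eq_add.1 this
    rw [h, map_zero]
  map_add' f g := by rw [lap_iter_add, map_add]

theorem lam_rot (N : ℕ) (i j : Fin 6) (f : Pow k 6) :
    lam N (X (par i) * pd j f - X (par j) * pd i f) = 0 := constCoeff_rot N i j f

theorem pd_qq (i : Fin 6) : pd i (qq k) = X (par i) := by
  rw [qq, pd_add, pd_add, pd_mul, pd_mul, pd_mul]
  fin_cases i <;> simp [pd, pderiv_X_of_ne, par, Equiv.swap_apply_def]

theorem pd_qq_pow (i : Fin 6) (m : ℕ) (f : Pow k 6) :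
    pd i (qq k ^ (m + 1) * f) =
      qq k ^ m * (((m + 1 : ℕ) : Pow k 6) * X (par i) * f + qq k * pd i f) := by
  rw [pd_mul]
  have h : pd i (qq k ^ (m + 1)) = ((m + 1 : ℕ) : Pow k 6) * qq k ^ m * X (par i) := by
    rw [pd, pderiv_pow]
    change _ * pd i (qq k) = _
    rw [pd_qq]
    simp
  rw [h]
  ring

/-- `Δ(q^{m+1} f) = q^m (…)` -/
theorem lap_qq_pow (m : ℕ) (f : Pow k 6) : ∃ g : Pow k 6,
    lap (qq k ^ (m + 1) * f) = qq k ^ m * (((m + 1 : ℕ) : Pow k 6) * ((m + 3 : ℕ) : Pow k 6) * f + g) ∧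
      (f = 1 → g = 0) := by
  have key : ∀ i : Fin 6, pd i (pd (par i) (qq k ^ (m + 1) * f)) =
      ((m * (m + 1) : ℕ) : Pow k 6) * qq k ^ (m - 1) * (X i * X (par i)) * f +
      qq k ^ m * (((m + 1 : ℕ) : Pow k 6) * f + ((m + 1 : ℕ) : Pow k 6) * (X i * pd i f) +
        ((m + 1 : ℕ) : Pow k 6) * (X (par i) * pd (par i) f) + qq k * pd i (pd (par i) f)) := by
    intro i
    rw [pd_qq_pow, par_par]
    rcases m with _ | m
    · simp only [pow_zero, one_mul, Nat.cast_one, zero_add, zero_mul, Nat.cast_zero,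
        Nat.cast_one]
      rw [pd_add, pd_mul, pd_mul, pd_qq]
      have h2 : pd i (X i : Pow k 6) = 1 := by simp [pd]
      simp only [h2]
      ring
    · rw [pd_qq_pow, pd_add, pd_mul, pd_mul, pd_mul, pd_qq]
      have h1 : pd i (((m + 1 + 1 : ℕ) : Pow k 6)) = 0 := by
        have : ((m + 1 + 1 : ℕ) : Pow k 6) = C ((m + 1 + 1 : ℕ) : k) := by simp
        rw [this]
        exact pderiv_C
      have h2 : pd i (X i : Pow k 6) = 1 := by simp [pd]
      simp only [h1, h2, Nat.add_sub_cancel]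
      push_cast
      ring
  have h1 := key 0
  have h3 := key 2
  have h5 := key 4
  have e0 : par (0 : Fin 6) = 1 := rfl
  have e2 : par (2 : Fin 6) = 3 := rfl
  have e4 : par (4 : Fin 6) = 5 := rfl
  rw [e0] at h1
  rw [e2] at h3
  rw [e4] at h5
  refine ⟨((m + 1 : ℕ) : Pow k 6) * (X 0 * pd 0 f + X 1 * pd 1 f + X 2 * pd 2 f + X 3 * pd 3 f + X 4 * pd 4 f +
    X 5 * pd 5 f) + qq k * lap f, ?_, ?_⟩
  · rw [lap, h1, h3, h5]
    have hq : ((m * (m + 1) : ℕ) : Pow k 6) * qq k ^ (m - 1) * (X 0 * X 1) * f +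
        ((m * (m + 1) : ℕ) : Pow k 6) * qq k ^ (m - 1) * (X 2 * X 3) * f +
        ((m * (m + 1) : ℕ) : Pow k 6) * qq k ^ (m - 1) * (X 4 * X 5) * f =
        ((m * (m + 1) : ℕ) : Pow k 6) * qq k ^ m * f := by
      rcases m with _ | m
      · simp
      · rw [Nat.add_sub_cancel]
        rw [show (qq k) ^ (m + 1) = qq k ^ m * (X 0 * X 1 + X 2 * X 3 + X 4 * X 5) by
          rw [pow_succ]; rfl]
        ring
    rw [lap]
    push_cast at hq ⊢
    linear_combination hq
  · rintro rfl
    simp [pd, lap]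

theorem lam_qq_pow [CharZero k] (N : ℕ) : lam N (qq k ^ N) ≠ 0 := by
  change constantCoeff (lap^[N] (qq k ^ N)) ≠ 0
  have h : ∀ N : ℕ, ∃ c : ℕ, c ≠ 0 ∧ lap^[N] (qq k ^ N) = (c : Pow k 6) := by
    have lapn : ∀ (N c : ℕ) (f : Pow k 6), lap^[N] ((c : Pow k 6) * f) = c * lap^[N] f := by
      intro N c f
      induction c with
      | zero =>
        have := (lam (k := k) N).map_zero
        have h0 : lap^[N] (0 : Pow k 6) = 0 := by
          have := lap_iter_add N (0 : Pow k 6) 0
          rw [add_zero] at this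
          exact left_eq_add.1 this
        simp [h0]
      | succ c ih => push_cast; rw [add_mul, one_mul, lap_iter_add, ih]; ring
    intro N
    induction N with
    | zero => exact ⟨1, one_ne_zero, by simp⟩
    | succ N ih =>
      obtain ⟨c, hc, h⟩ := ih
      obtain ⟨g, hg, hg0⟩ := lap_qq_pow (k := k) N 1
      rw [hg0 rfl, mul_one, mul_one, add_zero] at hg
      refine ⟨(N + 1) * (N + 3) * c, by positivity, ?_⟩
      rw [Function.iterate_succ_apply, hg]
      have : qq k ^ N * (((N + 1 : ℕ) : Pow k 6) * ((N + 3 : ℕ) : Pow k 6)) =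
          (((N + 1) * (N + 3) : ℕ) : Pow k 6) * qq k ^ N := by push_cast; ring
      rw [this, lapn, h]
      push_cast
      ring
  obtain ⟨c, hc, h⟩ := h N
  rw [h, map_natCast]
  exact_mod_cast hc

theorem lam_qq_pow_succ (N : ℕ) (f : Pow k 6) : lam N (qq k ^ (N + 1) * f) = 0 := by
  change constantCoeff (lap^[N] (qq k ^ (N + 1) * f)) = 0
  have h : ∀ N : ℕ, ∀ f : Pow k 6, ∃ g, lap^[N] (qq k ^ (N + 1) * f) = qq k * g := by
    intro N
    induction N with
    | zero => intro f; exact ⟨f, by simp⟩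
    | succ N ih =>
      intro f
      obtain ⟨g, hg, -⟩ := lap_qq_pow (k := k) (N + 1) f
      rw [Function.iterate_succ_apply, hg]
      exact ih _
  obtain ⟨g, hg⟩ := h N f
  rw [hg, map_mul, qq]
  simp

end Pool.Agent.R916.HdR
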