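import Pool.Agent.R916.HdR.Mono

/-!
# A nonzero differential `d_2`
-/

set_option autoImplicit false

noncomputable section

namespace Pool.Agent.R916.HdR

universe u

open MvPowerSeries

variable {k : Type u} [Field k]

/-- the sequence `q x_0, q x_2` -/
def ff (k : Type u) [Field k] : Fin 2 → Pow k 6 := ![qq k * X 0, qq k * X 2]

/-- the variables, in the field of fractions -/
def xx (k : Type u) [Field k] (i : Fin 6) : Fr k 6 := io k 6 (X i)

/-- the quadratic form, in the field of fractions -/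
def QQ (k : Type u) [Field k] : Fr k 6 := io k 6 (qq k)

theorem xx_ne (i : Fin 6) : xx k i ≠ 0 := by
  rw [xx, Ne, map_eq_zero_iff _ io_inj]
  intro h
  have h1 := congrArg (coeff (Finsupp.single i 1)) h
  rw [coeff_index_single_self_X, map_zero] at h1
  exact one_ne_zero h1

theorem qq_ne : qq k ≠ 0 := by
  intro h
  have h1 := congrArg (fun f => pd 1 (pd 0 f)) h
  have h2 : pd 0 (qq k) = X 1 := pd_qq 0
  simp only [h2] at h1
  simp [pd] at h1

theorem QQ_ne : QQ k ≠ 0 := by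
  rw [QQ, Ne, map_eq_zero_iff _ io_inj]
  exact qq_ne

theorem QQ_eq : QQ k = xx k 0 * xx k 1 + xx k 2 * xx k 3 + xx k 4 * xx k 5 := by
  simp only [QQ, qq, xx, map_add, map_mul]

theorem der_xx (i j : Fin 6) : der k 6 i (xx k j) = if i = j then 1 else 0 := by
  rw [xx, der_algebraMap]
  split_ifs with h
  · subst h
    rw [pderiv_X_self, map_one]
  · rw [pderiv_X_of_ne (Ne.symm h), map_zero]

theorem der_QQ (i : Fin 6) : der k 6 i (QQ k) = xx k (par i) := by
  rw [QQ, der_algebraMap]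
  exact congrArg _ (pd_qq i)

theorem der_div (i : Fin 6) (a b : Fr k 6) :
    der k 6 i (a / b) = (b * der k 6 i a - a * der k 6 i b) / b ^ 2 := by
  rw [Derivation.leibniz_div, smul_eq_mul, smul_eq_mul, smul_eq_mul]
  field_simp

theorem der_mul (i : Fin 6) (a b : Fr k 6) :
    der k 6 i (a * b) = a * der k 6 i b + b * der k 6 i a := by
  rw [Derivation.leibniz, smul_eq_mul, smul_eq_mul]

theorem der_neg (i : Fin 6) (a : Fr k 6) : der k 6 i (-a) = -der k 6 i a := map_neg _ _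

theorem D1 (a : Fr k 6) : totalD (mono {0, 2, 4} {0, 1} a : Coch k 6 2) =
    mono {0, 1, 2, 4} {0, 1} (-der k 6 1 a) + mono {0, 2, 3, 4} {0, 1} (der k 6 3 a) +
      mono {0, 2, 4, 5} {0, 1} (-der k 6 5 a) := by
  rw [totalD_mono]
  have h1 : ({0, 2, 4} : Finset (Fin 6))ᶜ = {1, 3, 5} := by decide
  have h2 : ({0, 1} : Finset (Fin 2))ᶜ = ∅ := by decide
  rw [h1, h2, Finset.sum_empty, Finset.sum_insert (by decide), Finset.sum_insert (by decide),
    Finset.sum_singleton]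
  have i1 : insert 1 ({0, 2, 4} : Finset (Fin 6)) = {0, 1, 2, 4} := by decide
  have i3 : insert 3 ({0, 2, 4} : Finset (Fin 6)) = {0, 2, 3, 4} := by decide
  have i5 : insert 5 ({0, 2, 4} : Finset (Fin 6)) = {0, 2, 4, 5} := by decide
  rw [i1, i3, i5]
  have s1 : sgn 1 ({0, 1, 2, 4} : Finset (Fin 6)) = -1 := by decide
  have s3 : sgn 3 ({0, 2, 3, 4} : Finset (Fin 6)) = 1 := by decide
  have s5 : sgn 5 ({0, 2, 4, 5} : Finset (Fin 6)) = -1 := by decide
  rw [s1, s3, s5, add_zero, add_assoc]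
  congr 1
  · simp
  · congr 1 <;> simp

theorem D2 (a : Fr k 6) : totalD (mono {0, 2, 4, 5} {0} a : Coch k 6 2) =
    mono {0, 1, 2, 4, 5} {0} (-der k 6 1 a) + mono {0, 2, 3, 4, 5} {0} (der k 6 3 a) +
      mono {0, 2, 4, 5} {0, 1} (-a) := by
  rw [totalD_mono]
  have h1 : ({0, 2, 4, 5} : Finset (Fin 6))ᶜ = {1, 3} := by decide
  have h2 : ({0} : Finset (Fin 2))ᶜ = {1} := by decide
  rw [h1, h2, Finset.sum_insert (by decide), Finset.sum_singleton, Finset.sum_singleton]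
  have i1 : insert 1 ({0, 2, 4, 5} : Finset (Fin 6)) = {0, 1, 2, 4, 5} := by decide
  have i3 : insert 3 ({0, 2, 4, 5} : Finset (Fin 6)) = {0, 2, 3, 4, 5} := by decide
  have i5 : insert 1 ({0} : Finset (Fin 2)) = {0, 1} := by decide
  rw [i1, i3, i5]
  have s1 : sgn 1 ({0, 1, 2, 4, 5} : Finset (Fin 6)) = -1 := by decide
  have s3 : sgn 3 ({0, 2, 3, 4, 5} : Finset (Fin 6)) = 1 := by decide
  have s5 : sgn 1 ({0, 1} : Finset (Fin 2)) = -1 := by decide
  have c1 : ({0, 2, 4, 5} : Finset (Fin 6)).card = 4 := by decide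
  rw [s1, s3, s5, c1]
  congr 1
  · congr 1 <;> simp
  · congr 1
    push_cast; ring

theorem D3 (a : Fr k 6) : totalD (mono {0, 2, 3, 4} {0} a : Coch k 6 2) =
    mono {0, 1, 2, 3, 4} {0} (-der k 6 1 a) + mono {0, 2, 3, 4, 5} {0} (der k 6 5 a) +
      mono {0, 2, 3, 4} {0, 1} (-a) := by
  rw [totalD_mono]
  have h1 : ({0, 2, 3, 4} : Finset (Fin 6))ᶜ = {1, 5} := by decide
  have h2 : ({0} : Finset (Fin 2))ᶜ = {1} := by decide
  rw [h1, h2, Finset.sum_insert (by decide), Finset.sum_singleton, Finset.sum_singleton]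
  have i1 : insert 1 ({0, 2, 3, 4} : Finset (Fin 6)) = {0, 1, 2, 3, 4} := by decide
  have i3 : insert 5 ({0, 2, 3, 4} : Finset (Fin 6)) = {0, 2, 3, 4, 5} := by decide
  have i5 : insert 1 ({0} : Finset (Fin 2)) = {0, 1} := by decide
  rw [i1, i3, i5]
  have s1 : sgn 1 ({0, 1, 2, 3, 4} : Finset (Fin 6)) = -1 := by decide
  have s3 : sgn 5 ({0, 2, 3, 4, 5} : Finset (Fin 6)) = 1 := by decide
  have s5 : sgn 1 ({0, 1} : Finset (Fin 2)) = -1 := by decide
  have c1 : ({0, 2, 3, 4} : Finset (Fin 6)).card = 4 := by decide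
  rw [s1, s3, s5, c1]
  congr 1
  · congr 1 <;> simp
  · congr 1
    push_cast; ring

theorem D4 (a : Fr k 6) : totalD (mono {0, 2, 4, 5} {1} a : Coch k 6 2) =
    mono {0, 1, 2, 4, 5} {1} (-der k 6 1 a) + mono {0, 2, 3, 4, 5} {1} (der k 6 3 a) +
      mono {0, 2, 4, 5} {0, 1} a := by
  rw [totalD_mono]
  have h1 : ({0, 2, 4, 5} : Finset (Fin 6))ᶜ = {1, 3} := by decide
  have h2 : ({1} : Finset (Fin 2))ᶜ = {0} := by decide
  rw [h1, h2, Finset.sum_insert (by decide), Finset.sum_singleton, Finset.sum_singleton]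
  have i1 : insert 1 ({0, 2, 4, 5} : Finset (Fin 6)) = {0, 1, 2, 4, 5} := by decide
  have i3 : insert 3 ({0, 2, 4, 5} : Finset (Fin 6)) = {0, 2, 3, 4, 5} := by decide
  have i5 : insert 0 ({1} : Finset (Fin 2)) = {0, 1} := by decide
  rw [i1, i3, i5]
  have s1 : sgn 1 ({0, 1, 2, 4, 5} : Finset (Fin 6)) = -1 := by decide
  have s3 : sgn 3 ({0, 2, 3, 4, 5} : Finset (Fin 6)) = 1 := by decide
  have s5 : sgn 0 ({0, 1} : Finset (Fin 2)) = 1 := by decide
  have c1 : ({0, 2, 4, 5} : Finset (Fin 6)).card = 4 := by decide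
  rw [s1, s3, s5, c1]
  congr 1
  · congr 1 <;> simp
  · congr 1
    push_cast; ring

theorem D5 (a : Fr k 6) : totalD (mono {0, 1, 2, 4} {1} a : Coch k 6 2) =
    mono {0, 1, 2, 3, 4} {1} (-der k 6 3 a) + mono {0, 1, 2, 4, 5} {1} (der k 6 5 a) +
      mono {0, 1, 2, 4} {0, 1} a := by
  rw [totalD_mono]
  have h1 : ({0, 1, 2, 4} : Finset (Fin 6))ᶜ = {3, 5} := by decide
  have h2 : ({1} : Finset (Fin 2))ᶜ = {0} := by decide
  rw [h1, h2, Finset.sum_insert (by decide), Finset.sum_singleton, Finset.sum_singleton]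
  have i1 : insert 3 ({0, 1, 2, 4} : Finset (Fin 6)) = {0, 1, 2, 3, 4} := by decide
  have i3 : insert 5 ({0, 1, 2, 4} : Finset (Fin 6)) = {0, 1, 2, 4, 5} := by decide
  have i5 : insert 0 ({1} : Finset (Fin 2)) = {0, 1} := by decide
  rw [i1, i3, i5]
  have s1 : sgn 3 ({0, 1, 2, 3, 4} : Finset (Fin 6)) = -1 := by decide
  have s3 : sgn 5 ({0, 1, 2, 4, 5} : Finset (Fin 6)) = 1 := by decide
  have s5 : sgn 0 ({0, 1} : Finset (Fin 2)) = 1 := by decide
  have c1 : ({0, 1, 2, 4} : Finset (Fin 6)).card = 4 := by decide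
  rw [s1, s3, s5, c1]
  congr 1
  · congr 1 <;> simp
  · congr 1
    push_cast; ring

/-- `x_5 / (x_0 x_2 q)` -/
def c0 (k : Type u) [Field k] : Fr k 6 := xx k 5 / (xx k 0 * xx k 2 * QQ k)
/-- `- x_3 / (x_0 q^2)` -/
def c1 (k : Type u) [Field k] : Fr k 6 := -(xx k 3 / (xx k 0 * QQ k ^ 2))
/-- `- x_5 / (x_0 q^2)` -/
def c2 (k : Type u) [Field k] : Fr k 6 := -(xx k 5 / (xx k 0 * QQ k ^ 2))
/-- `x_1 / (x_2 q^2)` -/
def c3 (k : Type u) [Field k] : Fr k 6 := xx k 1 / (xx k 2 * QQ k ^ 2)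
/-- `- x_5 / (x_2 q^2)` -/
def c4 (k : Type u) [Field k] : Fr k 6 := -(xx k 5 / (xx k 2 * QQ k ^ 2))

/-- The cochain whose class has a nonzero `d_2`. -/
def xc (k : Type u) [Field k] : Coch k 6 2 :=
  mono {0, 2, 4} {0, 1} (c0 k) + mono {0, 2, 4, 5} {0} (c1 k) + mono {0, 2, 3, 4} {0} (c2 k) +
    mono {0, 2, 4, 5} {1} (c3 k) + mono {0, 1, 2, 4} {1} (c4 k)

theorem der_QQ2 (i : Fin 6) : der k 6 i (QQ k ^ 2) = 2 * QQ k * xx k (par i) := by
  rw [pow_two, der_mul, der_QQ]; ring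

theorem par0 : par 0 = 1 := rfl
theorem par1 : par 1 = 0 := rfl
theorem par2 : par 2 = 3 := rfl
theorem par3 : par 3 = 2 := rfl
theorem par4 : par 4 = 5 := rfl
theorem par5 : par 5 = 4 := rfl

theorem totalD_xc : totalD (xc k) =
    mono {0, 2, 3, 4, 5} {0} (-2 * xx k 1 / QQ k ^ 3) +
    mono {0, 1, 2, 4, 5} {0} (-2 * xx k 3 / QQ k ^ 3) +
    mono {0, 1, 2, 3, 4} {0} (-2 * xx k 5 / QQ k ^ 3) +
    mono {0, 2, 3, 4, 5} {1} (-2 * xx k 1 / QQ k ^ 3) +
    mono {0, 1, 2, 4, 5} {1} (-2 * xx k 3 / QQ k ^ 3) +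
    mono {0, 1, 2, 3, 4} {1} (-2 * xx k 5 / QQ k ^ 3) := by
  have hQ := QQ_ne (k := k)
  have hx0 := xx_ne (k := k) 0
  have hx2 := xx_ne (k := k) 2
  have hQe := QQ_eq (k := k)
  have e1 : -der k 6 1 (c0 k) + c4 k = 0 := by
    rw [c0, c4]
    simp only [der_div, der_mul, der_xx, der_QQ, par1]
    simp only [Fin.reduceEq, if_false]
    field_simp
    ring
  have e2 : der k 6 3 (c0 k) + -c2 k = 0 := by
    rw [c0, c2]
    simp only [der_div, der_mul, der_xx, der_QQ, par3]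
    simp only [Fin.reduceEq, if_false]
    field_simp
    ring
  have e3 : -der k 6 5 (c0 k) + -c1 k + c3 k = 0 := by
    rw [c0, c1, c3]
    simp only [der_div, der_mul, der_xx, der_QQ, par5]
    simp only [Fin.reduceEq, if_false, if_true]
    field_simp
    linear_combination (-(xx k 0 * xx k 2)) * hQe
  have e4 : -der k 6 1 (c1 k) = -2 * xx k 3 / QQ k ^ 3 := by
    rw [c1, der_neg]
    simp only [der_div, der_mul, der_xx, der_QQ2, par1]
    simp only [Fin.reduceEq, if_false]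
    field_simp
    ring
  have e5 : der k 6 3 (c1 k) + der k 6 5 (c2 k) = -2 * xx k 1 / QQ k ^ 3 := by
    rw [c1, c2, der_neg, der_neg]
    simp only [der_div, der_mul, der_xx, der_QQ2, par3, par5]
    simp only [Fin.reduceEq, if_false, if_true]
    field_simp
    linear_combination (-2 * xx k 0) * hQe
  have e6 : -der k 6 1 (c2 k) = -2 * xx k 5 / QQ k ^ 3 := by
    rw [c2, der_neg]
    simp only [der_div, der_mul, der_xx, der_QQ2, par1]
    simp only [Fin.reduceEq, if_false]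
    field_simp
    ring
  have e7 : -der k 6 1 (c3 k) + der k 6 5 (c4 k) = -2 * xx k 3 / QQ k ^ 3 := by
    rw [c3, c4, der_neg]
    simp only [der_div, der_mul, der_xx, der_QQ2, par1, par5]
    simp only [Fin.reduceEq, if_false, if_true]
    field_simp
    linear_combination (-2 * xx k 2) * hQe
  have e8 : der k 6 3 (c3 k) = -2 * xx k 1 / QQ k ^ 3 := by
    rw [c3]
    simp only [der_div, der_mul, der_xx, der_QQ2, par3]
    simp only [Fin.reduceEq, if_false]
    field_simp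
    ring
  have e9 : -der k 6 3 (c4 k) = -2 * xx k 5 / QQ k ^ 3 := by
    rw [c4, der_neg]
    simp only [der_div, der_mul, der_xx, der_QQ2, par3]
    simp only [Fin.reduceEq, if_false]
    field_simp
    ring
  have key : totalD (xc k) =
      mono {0, 1, 2, 4} {0, 1} (-der k 6 1 (c0 k) + c4 k) +
      mono {0, 2, 3, 4} {0, 1} (der k 6 3 (c0 k) + -c2 k) +
      mono {0, 2, 4, 5} {0, 1} (-der k 6 5 (c0 k) + -c1 k + c3 k) +
      mono {0, 2, 3, 4, 5} {0} (der k 6 3 (c1 k) + der k 6 5 (c2 k)) +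
      mono {0, 1, 2, 4, 5} {0} (-der k 6 1 (c1 k)) +
      mono {0, 1, 2, 3, 4} {0} (-der k 6 1 (c2 k)) +
      mono {0, 2, 3, 4, 5} {1} (der k 6 3 (c3 k)) +
      mono {0, 1, 2, 4, 5} {1} (-der k 6 1 (c3 k) + der k 6 5 (c4 k)) +
      mono {0, 1, 2, 3, 4} {1} (-der k 6 3 (c4 k)) := by
    rw [xc, totalD_add, totalD_add, totalD_add, totalD_add, D1, D2, D3, D4, D5]
    simp only [← mono_add]
    abel
  rw [key, e1, e2, e3, e4, e5, e6, e7, e8, e9]
  simp only [mono_zero]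
  abel

end Pool.Agent.R916.HdR
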