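import Pool.Agent.R916.HdR.Lap

/-!
# Monomial cochains
-/

set_option autoImplicit false

noncomputable section

namespace Pool.Agent.R916.HdR

universe u

open MvPowerSeries

variable {k : Type u} [Field k] {n s : ℕ}

/-- the embedding of `R` in its field of fractions -/
abbrev io (k : Type u) [Field k] (n : ℕ) : Pow k n →+* Fr k n := algebraMap (Pow k n) (Fr k n)

theorem io_inj : Function.Injective (io k n) := IsFractionRing.injective _ _

theorem locAt_add {g : Pow k n} {z w : Fr k n} (hz : z ∈ locAt g) (hw : w ∈ locAt g) :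
    z + w ∈ locAt g := by
  obtain ⟨m, a, ha⟩ := hz
  obtain ⟨m', b, hb⟩ := hw
  refine ⟨m + m', a * g ^ m' + b * g ^ m, ?_⟩
  rw [map_add, map_mul, map_mul, ← ha, ← hb, map_pow, map_pow]
  ring

theorem locAt_zero (g : Pow k n) : (0 : Fr k n) ∈ locAt g := ⟨0, 0, by simp⟩

/-- the cochain with the single coefficient `a` at `(T₀, S₀)` -/
def mono (T₀ : Finset (Fin n)) (S₀ : Finset (Fin s)) (a : Fr k n) : Coch k n s :=
  fun T S => if T = T₀ ∧ S = S₀ then a else 0

theorem FilK_add {f : Fin s → Pow k n} {p l : ℤ} {c c' : Coch k n s} (h : c ∈ FilK f p l)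
    (h' : c' ∈ FilK f p l) : c + c' ∈ FilK f p l := by
  refine ⟨fun T S => locAt_add (h.1 T S) (h'.1 T S), fun T S hne => ?_⟩
  by_cases h1 : c T S = 0
  · by_cases h2 : c' T S = 0
    · exact absurd (by simp [h1, h2]) hne
    · exact h'.2 T S h2
  · exact h.2 T S h1

theorem FilK_zero {f : Fin s → Pow k n} {p l : ℤ} : (0 : Coch k n s) ∈ FilK f p l :=
  ⟨fun _ _ => locAt_zero _, fun _ _ h => absurd rfl h⟩

theorem mono_mem {f : Fin s → Pow k n} {p l : ℤ} {T₀ : Finset (Fin n)} {S₀ : Finset (Fin s)}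
    {a : Fr k n} (ha : a ∈ locAt (∏ j ∈ S₀, f j)) (hl : (T₀.card : ℤ) + S₀.card = l)
    (hp : p ≤ T₀.card) : (mono T₀ S₀ a : Coch k n s) ∈ FilK f p l := by
  refine ⟨fun T S => ?_, fun T S h => ?_⟩
  · unfold mono
    split_ifs with h
    · rw [h.2]; exact ha
    · exact locAt_zero _
  · unfold mono at h
    split_ifs at h with h1
    · rw [h1.1, h1.2]; exact ⟨hl, hp⟩
    · exact absurd rfl h

theorem mono_add (T₀ : Finset (Fin n)) (S₀ : Finset (Fin s)) (a b : Fr k n) :
    (mono T₀ S₀ a : Coch k n s) + mono T₀ S₀ b = mono T₀ S₀ (a + b) := by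
  funext T S
  simp only [Pi.add_apply, mono]
  split_ifs <;> simp

theorem mono_zero (T₀ : Finset (Fin n)) (S₀ : Finset (Fin s)) :
    (mono T₀ S₀ (0 : Fr k n) : Coch k n s) = 0 := by
  funext T S
  simp [mono]

theorem deRham_add (c c' : Coch k n s) : deRham (c + c') = deRham c + deRham c' := by
  funext T S
  simp only [deRham, Pi.add_apply, map_add, mul_add, Finset.sum_add_distrib]

theorem cech_add (c c' : Coch k n s) : cech (c + c') = cech c + cech c' := by
  funext T S
  simp only [cech, Pi.add_apply, mul_add, Finset.sum_add_distrib]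

theorem totalD_add (c c' : Coch k n s) : totalD (c + c') = totalD c + totalD c' := by
  funext T S
  simp only [totalD, deRham_add, cech_add, Pi.add_apply, mul_add]
  abel

theorem deRham_mono (T₀ : Finset (Fin n)) (S₀ : Finset (Fin s)) (a : Fr k n) :
    deRham (mono T₀ S₀ a : Coch k n s) =
      ∑ i ∈ T₀ᶜ, mono (insert i T₀) S₀ ((sgn i (insert i T₀) : Fr k n) * der k n i a) := by
  funext T S
  rw [deRham, Finset.sum_apply, Finset.sum_apply]
  have h1 : ∀ i ∈ T, (sgn i T : Fr k n) * der k n i ((mono T₀ S₀ a : Coch k n s) (T.erase i) S) =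
      if T.erase i = T₀ ∧ S = S₀ then (sgn i T : Fr k n) * der k n i a else 0 := by
    intro i _
    unfold mono
    split_ifs <;> simp
  rw [Finset.sum_congr rfl h1, ← Finset.sum_filter]
  simp only [mono]
  rw [← Finset.sum_filter]
  have h2 : T.filter (fun i => T.erase i = T₀ ∧ S = S₀) =
      (T₀ᶜ).filter (fun i => T = insert i T₀ ∧ S = S₀) := by
    ext i
    simp only [Finset.mem_filter, Finset.mem_compl]
    constructor
    · rintro ⟨hi, h, hS⟩
      refine ⟨?_, ?_, hS⟩
      · rw [← h]; exact Finset.notMem_erase i T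
      · rw [← h, Finset.insert_erase hi]
    · rintro ⟨hi, h, hS⟩
      refine ⟨?_, ?_, hS⟩
      · rw [h]; exact Finset.mem_insert_self _ _
      · rw [h, Finset.erase_insert hi]
  rw [h2]
  refine Finset.sum_congr rfl fun i hi => ?_
  rw [(Finset.mem_filter.1 hi).2.1]

theorem cech_mono (T₀ : Finset (Fin n)) (S₀ : Finset (Fin s)) (a : Fr k n) :
    cech (mono T₀ S₀ a : Coch k n s) =
      ∑ i ∈ S₀ᶜ, mono T₀ (insert i S₀) ((sgn i (insert i S₀) : Fr k n) * a) := by
  funext T S
  rw [cech, Finset.sum_apply, Finset.sum_apply]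
  have h1 : ∀ i ∈ S, (sgn i S : Fr k n) * ((mono T₀ S₀ a : Coch k n s) T (S.erase i)) =
      if T = T₀ ∧ S.erase i = S₀ then (sgn i S : Fr k n) * a else 0 := by
    intro i _
    unfold mono
    split_ifs <;> simp
  rw [Finset.sum_congr rfl h1, ← Finset.sum_filter]
  simp only [mono]
  rw [← Finset.sum_filter]
  have h2 : S.filter (fun i => T = T₀ ∧ S.erase i = S₀) =
      (S₀ᶜ).filter (fun i => T = T₀ ∧ S = insert i S₀) := by
    ext i
    simp only [Finset.mem_filter, Finset.mem_compl]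
    constructor
    · rintro ⟨hi, hT, h⟩
      refine ⟨?_, hT, ?_⟩
      · rw [← h]; exact Finset.notMem_erase i S
      · rw [← h, Finset.insert_erase hi]
    · rintro ⟨hi, hT, h⟩
      refine ⟨?_, hT, ?_⟩
      · rw [h]; exact Finset.mem_insert_self _ _
      · rw [h, Finset.erase_insert hi]
  rw [h2]
  refine Finset.sum_congr rfl fun i hi => ?_
  rw [(Finset.mem_filter.1 hi).2.2]

theorem totalD_mono (T₀ : Finset (Fin n)) (S₀ : Finset (Fin s)) (a : Fr k n) :
    totalD (mono T₀ S₀ a : Coch k n s) =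
      ∑ i ∈ T₀ᶜ, mono (insert i T₀) S₀ ((sgn i (insert i T₀) : Fr k n) * der k n i a) +
      ∑ i ∈ S₀ᶜ, mono T₀ (insert i S₀) ((-1) ^ T₀.card * ((sgn i (insert i S₀) : Fr k n) * a)) := by
  funext T S
  rw [totalD, deRham_mono, cech_mono]
  rw [Pi.add_apply, Pi.add_apply]
  congr 1
  rw [Finset.sum_apply, Finset.sum_apply, Finset.sum_apply, Finset.sum_apply, Finset.mul_sum]
  refine Finset.sum_congr rfl fun i _ => ?_
  unfold mono
  split_ifs with h
  · rw [h.1]
  · simp

end Pool.Agent.R916.HdR
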